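import Pool.Agent.helper88.EF.Defs
import Pool.Agent.helper6.FQ.SF
import Pool.Agent.helper97.FQ.PT
import Pool.Agent.helper13.EF.DL
import Pool.Agent.helper23.EF.RS
import Pool.Agent.helper52.EF.CT

/-! # Project EF, module RB: r2, r3, r4 (and the general scheme) -/

namespace Pool.Agent.helper88.EF

open Finset Pool.Agent.helper76.LP

theorem RB_card_q (D q : ℕ) [NeZero D] (hq : q.Prime) (hqD : q ∣ D) (h2 : ¬ q * q ∣ D) :
    Nat.card (Gam D q) = q - 1 := by
  rw [card_Gam D q hq hqD, if_neg (by rwa [pow_two])]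

theorem RB_card_ge (D q : ℕ) [NeZero D] (hq : q.Prime) (hqD : q ∣ D) :
    q - 1 ≤ Nat.card (Gam D q) := by
  rw [card_Gam D q hq hqD]
  split_ifs <;> omega

theorem RB_dl_one {G : Type*} [CommGroup G] (v : ℕ → G) (L : List ℕ) (p : ℕ) (hp : p ∈ L)
    (hv : v p = 1) (f : G → ℤ) (x : G) : dl v L f x = 0 := by
  rw [dl_erase v L p hp, hv, one_mul, sub_self]

/-- the general scheme -/
theorem RB_main (D q : ℕ) [NeZero D] (L : List ℕ) (ev : Prop) (f : (ZMod D)ˣ → ℤ)
    (h : RHyp D q L ev f) (B : ℤ) (hB : 12 * B < 2 * (Nat.card (Gam D q) : ℤ))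
    (V : ℕ → Set (ZMod D)ˣ) (hV : ∀ p ∈ L, ∀ x ∈ V p, x ∈ Gam D p)
    (hc : ∀ p ∈ L, Gam D p ≤ Subgroup.closure (V p))
    (H : ∀ v : ℕ → (ZMod D)ˣ, (∀ p ∈ L, v p ∈ V p) → (∀ p ∈ L, v p ≠ 1) →
      ((-1 : (ZMod D)ˣ) ∉ Pl (Gam D) (q :: L) ∨ ∃ p ∈ L, v p * v p ≠ 1) ∧
      ∀ z ψ, Cub D q L v z ψ → Bd D ev ψ B) : MDv (Gam D) L f := by
  have hnd : L.Nodup := (List.nodup_cons.1 h.nd).2
  refine mdv_of_dl (Gam D) L hnd V hc f ?_
  intro v hv x
  by_cases h1 : ∃ p ∈ L, v p = 1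
  · obtain ⟨p, hp, hp1⟩ := h1
    exact RB_dl_one v L p hp hp1 f x
  · push Not at h1
    obtain ⟨ha, hb⟩ := H v hv h1
    obtain ⟨ψ, hT, hC, hS⟩ := cube_test D q L h.nd h.hL v (fun p hp => hV p hp _ (hv p hp)) h1 ha x
    have he := h.est ψ B hT (hb x ψ hC)
    rw [hS f h.odd h.mdv] at he
    by_contra hne
    have h2 : 1 ≤ |dl v L f x| := Int.one_le_abs hne
    rw [abs_mul, abs_mul, abs_two, Nat.abs_cast] at he
    have h3 : (0 : ℤ) ≤ (Nat.card (Gam D q) : ℤ) := Nat.cast_nonneg _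
    nlinarith

theorem RB_odd (D : ℕ) (h : 2 ∣ D) : ¬ Odd D := by
  rw [Nat.not_odd_iff_even]
  exact (even_iff_two_dvd).2 h

/-- every prime of `L` divides `D` -/
theorem RB_mem {D q : ℕ} {L : List ℕ} (hL : (q :: L).toFinset = D.primeFactors) {p : ℕ}
    (hp : p ∈ L) : p.Prime ∧ p ∣ D := by
  have h1 : p ∈ D.primeFactors := by
    rw [← hL, List.mem_toFinset]; exact List.mem_cons_of_mem _ hp
  exact ⟨Nat.prime_of_mem_primeFactors h1, Nat.dvd_of_mem_primeFactors h1⟩

theorem RB_memq {D q : ℕ} {L : List ℕ} (hL : (q :: L).toFinset = D.primeFactors) :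
    q.Prime ∧ q ∣ D := by
  have h1 : q ∈ D.primeFactors := by
    rw [← hL, List.mem_toFinset]; exact List.mem_cons_self
  exact ⟨Nat.prime_of_mem_primeFactors h1, Nat.dvd_of_mem_primeFactors h1⟩

theorem RB_mem_of {D q : ℕ} [NeZero D] {L : List ℕ} (hL : (q :: L).toFinset = D.primeFactors)
    {p : ℕ} (hp : p.Prime) (hpD : p ∣ D) (hpq : p ≠ q) : p ∈ L := by
  have h1 : p ∈ (q :: L).toFinset := by
    rw [hL]; exact Nat.mem_primeFactors.2 ⟨hp, hpD, NeZero.ne D⟩
  rw [List.mem_toFinset, List.mem_cons] at h1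
  exact h1.resolve_left hpq

/-- a generator of a group with more than two elements has nontrivial square -/
theorem RB_sq_ne {G : Type*} [CommGroup G] (H : Subgroup G) (g : G)
    (hH : H ≤ Subgroup.closure {g}) (hc : 2 < Nat.card H) : g * g ≠ 1 := by
  intro hg
  have h1 : ∀ x ∈ H, x = 1 ∨ x = g := by
    intro x hx
    have h2 := hH hx
    rw [Subgroup.mem_closure_singleton] at h2
    obtain ⟨n, rfl⟩ := h2
    rcases Int.even_or_odd' n with ⟨k, rfl | rfl⟩
    · left
      rw [zpow_mul, zpow_two, hg, one_zpow]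
    · right
      rw [zpow_add, zpow_mul, zpow_two, hg, one_zpow, one_mul, zpow_one]
  have hfin : Finite H := by
    by_contra hc'
    rw [not_finite_iff_infinite] at hc'
    rw [Nat.card_eq_zero_of_infinite] at hc
    omega
  have h3 : Nat.card H ≤ Nat.card ({1, g} : Set G) := by
    have : Finite ({1, g} : Set G) := Set.toFinite _
    apply Nat.card_le_card_of_injective (fun x : H => (⟨x.1, by
      have := h1 x.1 x.2
      simpa using this⟩ : ({1, g} : Set G)))
    intro a b hab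
    have := congrArg Subtype.val hab
    exact Subtype.ext this
  have h4 : Nat.card ({1, g} : Set G) ≤ 2 := by
    rw [Nat.card_coe_set_eq]
    exact (Set.ncard_insert_le _ _).trans (by simp)
  omega

/-- generators with a large prime -/
theorem RB_gen (D q : ℕ) [NeZero D] (L : List ℕ) (ev : Prop) (f : (ZMod D)ˣ → ℤ)
    (h : RHyp D q L ev f) (B : ℤ) (hB : 12 * B < 2 * (Nat.card (Gam D q) : ℤ))
    (hb : ∀ v z ψ, Cub D q L v z ψ → Bd D ev ψ B)
    (H : (-1 : (ZMod D)ˣ) ∉ Pl (Gam D) (q :: L) ∨ ∃ p ∈ L, 5 ≤ p) : MDv (Gam D) L f := by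
  classical
  by_cases h1 : (-1 : (ZMod D)ˣ) ∉ Pl (Gam D) (q :: L)
  · apply RB_main D q L ev f h B hB (fun p => (Gam D p : Set (ZMod D)ˣ)) (fun p _ x hx => hx)
      (fun p _ => Subgroup.subset_closure)
    intro v _ _
    exact ⟨Or.inl h1, hb v⟩
  · have h2 := H.resolve_left h1
    obtain ⟨p, hp, hp5⟩ := h2
    have hg : ∀ r : ℕ, ∃ g : (ZMod D)ˣ, r ∈ L → g ∈ Gam D r ∧ Gam D r ≤ Subgroup.closure {g} := by
      intro r
      by_cases hr : r ∈ L
      · obtain ⟨g, hg⟩ := gam_cyclic D r (RB_mem h.hL hr).1 (RB_mem h.hL hr).2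
        exact ⟨g, fun _ => hg⟩
      · exact ⟨1, fun h => absurd h hr⟩
    choose g hg using hg
    apply RB_main D q L ev f h B hB (fun p => {g p})
      (fun r hr x hx => by rw [Set.mem_singleton_iff.1 hx]; exact (hg r hr).1)
      (fun r hr => (hg r hr).2)
    intro v hv _
    refine ⟨Or.inr ⟨p, hp, ?_⟩, hb v⟩
    have h3 : v p = g p := hv p hp
    rw [h3]
    apply RB_sq_ne (Gam D p) (g p) (hg p hp).2
    have := RB_card_ge D p (RB_mem h.hL hp).1 (RB_mem h.hL hp).2
    omega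

theorem RB_bd_even (D q : ℕ) [NeZero D] (L : List ℕ) (ev : Prop) (h2 : 2 ∣ D)
    (v : ℕ → (ZMod D)ˣ) (z : (ZMod D)ˣ) (ψ : (ZMod D)ˣ → ℤ) (hψ : Cub D q L v z ψ) :
    Bd D ev ψ 1 :=
  bd_one D q L v z ψ hψ ev (fun _ ho => absurd ho (RB_odd D h2))

/-- the form of `D` when all primes different from `q` are at most 3 -/
theorem RB_form (D q : ℕ) [NeZero D] (L : List ℕ) (hnd : (q :: L).Nodup)
    (hL : (q :: L).toFinset = D.primeFactors) (h4 : D % 4 ≠ 2) (hq : ¬ 2 = q)
    (h1 : (-1 : (ZMod D)ˣ) ∈ Pl (Gam D) (q :: L)) (h5 : ∀ p ∈ L, p < 5) :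
    D = q ∨ D = 3 * q ∨ D = 4 * q ∨ D = 12 * q := by
  have hsq := sqf_of_neg_one D (q :: L) hL h1
  have hprod := (eq_prod_lam D h4 hsq).1
  rw [← hL, List.toFinset_cons, Finset.prod_insert] at hprod
  swap
  · rw [List.mem_toFinset]
    exact (List.nodup_cons.1 hnd).1
  rw [if_neg (fun h => hq h.symm)] at hprod
  have hsub : L.toFinset ⊆ {2, 3} := by
    intro p hp
    rw [List.mem_toFinset] at hp
    have hpp := (RB_mem hL hp).1
    have h5' := h5 p hp
    have h2 := hpp.two_le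
    have : p ≠ 4 := by rintro rfl; revert hpp; norm_num
    simp only [Finset.mem_insert, Finset.mem_singleton]
    omega
  have hcase : L.toFinset = ∅ ∨ L.toFinset = {2} ∨ L.toFinset = {3} ∨ L.toFinset = {2, 3} := by
    have h6 : L.toFinset ∈ ({2, 3} : Finset ℕ).powerset := Finset.mem_powerset.2 hsub
    have h7 : ({2, 3} : Finset ℕ).powerset = {∅, {2}, {3}, {2, 3}} := by decide
    rw [h7] at h6
    simpa using h6
  rcases hcase with h | h | h | h
  · rw [h, Finset.prod_empty] at hprod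
    left; omega
  · rw [h, Finset.prod_singleton] at hprod
    right; right; left
    simp at hprod
    omega
  · rw [h, Finset.prod_singleton] at hprod
    right; left
    simp at hprod
    omega
  · rw [h, Finset.prod_pair (by norm_num)] at hprod
    right; right; right
    simp at hprod
    omega

theorem RB_large (D q : ℕ) [NeZero D] (L : List ℕ) (hnd : (q :: L).Nodup)
    (hL : (q :: L).toFinset = D.primeFactors) (h4 : D % 4 ≠ 2) (hq : ¬ 2 = q)
    (hD : ¬ (D = q ∨ D = 3 * q ∨ D = 4 * q ∨ D = 12 * q)) :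
    (-1 : (ZMod D)ˣ) ∉ Pl (Gam D) (q :: L) ∨ ∃ p ∈ L, 5 ≤ p := by
  by_contra hc
  push Not at hc
  exact hD (RB_form D q L hnd hL h4 hq hc.1 hc.2)

theorem r2 (D q : ℕ) [NeZero D] (L : List ℕ) (ev : Prop) (f : (ZMod D)ˣ → ℤ)
    (h : RHyp D q L ev f) (h11 : 11 ≤ q) (h4 : 4 ∣ D) (h2 : ¬ q * q ∣ D) (ha : D ≠ 4 * q)
    (hb : D ≠ 12 * q) : MDv (Gam D) L f := by
  have hq := RB_memq h.hL
  have h2D : 2 ∣ D := (by norm_num : 2 ∣ 4).trans h4
  have hodd : Odd q := hq.1.odd_of_ne_two (by omega)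
  apply RB_gen D q L ev f h 1
  · rw [RB_card_q D q hq.1 hq.2 h2]
    have : 10 ≤ q - 1 := by omega
    have : (10 : ℤ) ≤ ((q - 1 : ℕ) : ℤ) := by exact_mod_cast this
    omega
  · intro v z ψ hψ
    exact RB_bd_even D q L ev h2D v z ψ hψ
  · apply RB_large D q L h.nd h.hL h.h4 (by omega)
    obtain ⟨k, hk⟩ := hodd
    obtain ⟨j, hj⟩ := h4
    rintro (h | h | h | h) <;> omega

theorem RB_invq (D q : ℕ) [NeZero D] (L : List ℕ) (f : (ZMod D)ˣ → ℤ)
    (hf : MDv (Gam D) (q :: L) f) (v : ℕ → (ZMod D)ˣ) (hv : ∀ p ∈ L, v p ∈ Gam D p)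
    (u : (ZMod D)ˣ) (hu : u ∈ Gam D q) (x : (ZMod D)ˣ) (hnd : L.Nodup) :
    dl v L f (u * x) = dl v L f x := by
  have h1 : MDv (Gam D) L (fun x => f (u * x) - f x) := hf u hu
  have h2 := dl_of_mdv (Gam D) L _ h1 v hv x
  rw [dl_eq_sum v L hnd] at h2
  rw [dl_eq_sum v L hnd, dl_eq_sum v L hnd, ← sub_eq_zero, ← h2, ← Finset.sum_sub_distrib]
  apply Finset.sum_congr rfl
  intro S _
  rw [← mul_sub]
  congr 3
  rw [mul_left_comm]

theorem RB_neg (D : ℕ) [NeZero D] (L : List ℕ) (hnd : L.Nodup) (f : (ZMod D)ˣ → ℤ)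
    (hodd : ∀ x, f (-x) = - f x) (v : ℕ → (ZMod D)ˣ) (x : (ZMod D)ˣ) :
    dl v L f (-x) = - dl v L f x := by
  rw [dl_eq_sum v L hnd, dl_eq_sum v L hnd, ← Finset.sum_neg_distrib]
  apply Finset.sum_congr rfl
  intro S _
  rw [mul_neg, hodd]
  ring

/-- an involution in the direction `p` changes the sign -/
theorem RB_inv {G : Type*} [CommGroup G] (v : ℕ → G) (L : List ℕ) (p : ℕ) (hp : p ∈ L)
    (hv : v p * v p = 1) (f : G → ℤ) (x : G) : dl v L f (v p * x) = - dl v L f x := by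
  rw [dl_erase v L p hp, dl_erase v L p hp f x, ← mul_assoc, hv, one_mul]
  ring

/-- a subgroup with two elements -/
theorem RB_two {G : Type*} [CommGroup G] (H : Subgroup G) (hc : Nat.card H = 2) (a b : G)
    (ha : a ∈ H) (hb : b ∈ H) (ha1 : a ≠ 1) (hb1 : b ≠ 1) : a = b := by
  by_contra hab
  have hfin : Finite H := Nat.finite_of_card_ne_zero (by omega)
  have h3 : Nat.card (Fin 3) ≤ Nat.card H := by
    apply Nat.card_le_card_of_injective (fun i : Fin 3 => if i = 0 then (1 : H) else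
      if i = 1 then ⟨a, ha⟩ else ⟨b, hb⟩)
    intro i j hij
    have ha1' : (⟨a, ha⟩ : H) ≠ 1 := fun h => ha1 (congrArg Subtype.val h)
    have hb1' : (⟨b, hb⟩ : H) ≠ 1 := fun h => hb1 (congrArg Subtype.val h)
    have hab' : (⟨a, ha⟩ : H) ≠ ⟨b, hb⟩ := fun h => hab (congrArg Subtype.val h)
    have key : ∀ i j : Fin 3, i < j → (if i = 0 then (1 : H) else
      if i = 1 then ⟨a, ha⟩ else ⟨b, hb⟩) ≠ (if j = 0 then (1 : H) else
      if j = 1 then ⟨a, ha⟩ else ⟨b, hb⟩) := by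
      intro i j hlt
      fin_cases i <;> fin_cases j <;> first | (exfalso; revert hlt; decide) | skip
      · exact fun h => ha1' h.symm
      · exact fun h => hb1' h.symm
      · exact hab'
    rcases lt_trichotomy i j with h | h | h
    · exact absurd hij (key i j h)
    · exact h
    · exact absurd hij.symm (key j i h)
  rw [Nat.card_eq_fintype_card, Fintype.card_fin] at h3
  omega

theorem r3 (D q : ℕ) [NeZero D] (L : List ℕ) (ev : Prop) (f : (ZMod D)ˣ → ℤ)
    (h : RHyp D q L ev f) (h5 : 5 ≤ q) (hD : D = 12 * q) : MDv (Gam D) L f := by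
  have hq := RB_memq h.hL
  have hnd : L.Nodup := (List.nodup_cons.1 h.nd).2
  have h2D : 2 ∣ D := by rw [hD]; exact Dvd.dvd.mul_right (by norm_num) q
  have h3D : 3 ∣ D := by rw [hD]; exact Dvd.dvd.mul_right (by norm_num) q
  have h2L : 2 ∈ L := RB_mem_of h.hL Nat.prime_two h2D (by omega)
  have h3L : 3 ∈ L := RB_mem_of h.hL Nat.prime_three h3D (by omega)
  have hc2 : Nat.card (Gam D 2) = 2 := by
    rw [card_Gam D 2 Nat.prime_two h2D, if_pos]
    rw [hD]; exact Dvd.dvd.mul_right (by norm_num) q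
  have hc3 : Nat.card (Gam D 3) = 2 := by
    rw [card_Gam D 3 Nat.prime_three h3D, if_neg]
    rw [hD]
    rintro ⟨k, hk⟩
    have h6 : 3 ∣ 4 * q := ⟨k, by omega⟩
    have h7 : 3 ∣ q := (Nat.Coprime.dvd_of_dvd_mul_left (by norm_num) h6)
    have := (Nat.prime_dvd_prime_iff_eq Nat.prime_three hq.1).1 h7
    omega
  -- the primes
  have hLsub : L.toFinset = {2, 3} := by
    ext p
    simp only [List.mem_toFinset, Finset.mem_insert, Finset.mem_singleton]
    constructor
    · intro hp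
      have hpp := RB_mem h.hL hp
      have h8 : p ∣ 12 * q := hD ▸ hpp.2
      rcases (hpp.1.dvd_mul).1 h8 with h9 | h9
      · have h10 : p ∣ 2 * 2 * 3 := by norm_num; exact h9
        rcases (hpp.1.dvd_mul).1 h10 with h11 | h11
        · left
          rcases (hpp.1.dvd_mul).1 h11 with h12 | h12 <;>
            exact (Nat.prime_dvd_prime_iff_eq hpp.1 Nat.prime_two).1 h12
        · right
          exact (Nat.prime_dvd_prime_iff_eq hpp.1 Nat.prime_three).1 h11
      · exfalso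
        have := (Nat.prime_dvd_prime_iff_eq hpp.1 hq.1).1 h9
        exact (List.nodup_cons.1 h.nd).1 (this ▸ hp)
    · rintro (rfl | rfl)
      · exact h2L
      · exact h3L
  -- `-1` in the product
  have hqq : ¬ q * q ∣ D := by
    rw [hD]
    intro hc
    have h6 : q ∣ 12 := Nat.dvd_of_mul_dvd_mul_right hq.1.pos hc
    have h7 : q ∣ 2 * 2 * 3 := by norm_num; exact h6
    rcases (hq.1.dvd_mul).1 h7 with h8 | h8
    · rcases (hq.1.dvd_mul).1 h8 with h9 | h9 <;>
        · have := (Nat.prime_dvd_prime_iff_eq hq.1 Nat.prime_two).1 h9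
          omega
    · have := (Nat.prime_dvd_prime_iff_eq hq.1 Nat.prime_three).1 h8
      omega
  have htop : Pl (Gam D) [q, 2, 3] = ⊤ := by
    apply Pl_eq_top
    · apply indep_Gam
      · simp only [List.nodup_cons, List.mem_cons, List.not_mem_nil, or_false, not_or,
          List.nodup_nil, and_true, not_false_eq_true]
        omega
      · intro p hp
        simp only [List.mem_cons, List.not_mem_nil, or_false] at hp
        rcases hp with rfl | rfl | rfl
        · exact Nat.mem_primeFactors.2 ⟨hq.1, hq.2, NeZero.ne D⟩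
        · exact Nat.mem_primeFactors.2 ⟨Nat.prime_two, h2D, NeZero.ne D⟩
        · exact Nat.mem_primeFactors.2 ⟨Nat.prime_three, h3D, NeZero.ne D⟩
    · simp only [List.map_cons, List.map_nil, List.prod_cons, List.prod_nil]
      rw [RB_card_q D q hq.1 hq.2 hqq, hc2, hc3, Nat.card_eq_fintype_card,
        ZMod.card_units_eq_totient, hD, Nat.totient_mul, Nat.totient_prime hq.1]
      · have : Nat.totient 12 = 4 := by decide
        rw [this]; ring
      · have h6 : Nat.Coprime (2 * 2 * 3) q := by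
          have h7 : Nat.Coprime 2 q := (Nat.coprime_primes Nat.prime_two hq.1).2 (by omega)
          have h8 : Nat.Coprime 3 q := (Nat.coprime_primes Nat.prime_three hq.1).2 (by omega)
          exact Nat.Coprime.mul_left (Nat.Coprime.mul_left h7 h7) h8
        exact h6
  have hm1 : (-1 : (ZMod D)ˣ) ∈ Pl (Gam D) [q, 2, 3] := by rw [htop]; trivial
  obtain ⟨ξ, hξ, w, hw, hξw⟩ := Subgroup.mem_sup.1 hm1
  obtain ⟨a, ha, w', hw', haw⟩ := Subgroup.mem_sup.1 hw
  have hw3 : w' ∈ Gam D 3 := by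
    have : Pl (Gam D) [3] = Gam D 3 := by
      show Gam D 3 ⊔ ⊥ = Gam D 3
      exact sup_bot_eq _
    rw [← this]; exact hw'
  -- residues
  have e4 : (4 : ℕ) ∣ D := by rw [hD]; exact Dvd.dvd.mul_right (by norm_num) q
  have hDq : D / q = 12 := by rw [hD, Nat.mul_div_cancel _ hq.1.pos]
  have hD3 : D / 3 = 4 * q := by rw [hD]; omega
  have hD2 : D / 2 = 6 * q := by rw [hD]; omega
  have hneg : ∀ r : ℕ, ∀ hr : r ∣ D, 2 < r → ZMod.unitsMap hr (-1 : (ZMod D)ˣ) ≠ 1 := by
    intro r hr hr2 hc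
    have h6 := congrArg Units.val hc
    rw [ZMod.unitsMap_def, Units.coe_map] at h6
    simp only [Units.val_neg, Units.val_one, MonoidHom.coe_coe, map_neg, map_one] at h6
    have h7 : ((2 : ℕ) : ZMod r) = 0 := by
      have : (1 : ZMod r) + 1 = 0 := by
        nth_rewrite 1 [← h6]; ring
      push_cast
      rw [← this]; norm_num
    rw [ZMod.natCast_eq_zero_iff] at h7
    have := Nat.le_of_dvd (by norm_num) h7
    omega
  have ha1 : a ≠ 1 := by
    intro hc
    apply hneg 4 e4 (by norm_num)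
    rw [← hξw, ← haw, hc, one_mul, map_mul]
    rw [gam_one D q 4 e4 (by rw [hDq]; norm_num) ξ hξ,
      gam_one D 3 4 e4 (by rw [hD3]; exact Dvd.intro q rfl) w' hw3, one_mul]
  have hw1 : w' ≠ 1 := by
    intro hc
    apply hneg 3 h3D (by norm_num)
    rw [← hξw, ← haw, hc, mul_one, map_mul]
    rw [gam_one D q 3 h3D (by rw [hDq]; norm_num) ξ hξ,
      gam_one D 2 3 h3D (by rw [hD2]; exact Dvd.dvd.mul_right (by norm_num) q) a ha, one_mul]
  -- the argument
  refine mdv_of_dl (Gam D) L hnd (fun p => (Gam D p : Set (ZMod D)ˣ))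
    (fun p _ => Subgroup.subset_closure) f ?_
  intro v hv x
  by_cases h21 : v 2 = 1
  · exact RB_dl_one v L 2 h2L h21 f x
  by_cases h31 : v 3 = 1
  · exact RB_dl_one v L 3 h3L h31 f x
  have hv' : ∀ p ∈ L, v p ∈ Gam D p := hv
  have hsq : ∀ p ∈ ({2, 3} : Set ℕ), v p * v p = 1 := by
    intro p hp
    by_contra hc
    have hpc : Nat.card (Gam D p) = 2 := by
      rcases hp with rfl | rfl
      · exact hc2
      · exact hc3
    have hpL : p ∈ L := by
      rcases hp with rfl | rfl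
      · exact h2L
      · exact h3L
    have hp1 : v p ≠ 1 := by
      rcases hp with rfl | rfl
      · exact h21
      · exact h31
    have h6 := RB_two (Gam D p) hpc (v p * v p) (v p) ((Gam D p).mul_mem (hv' p hpL) (hv' p hpL))
      (hv' p hpL) hc hp1
    exact hp1 (mul_eq_left.1 h6)
  have e1 : a = v 2 := RB_two (Gam D 2) hc2 a (v 2) ha (hv' 2 h2L) ha1 h21
  have e2 : w' = v 3 := RB_two (Gam D 3) hc3 w' (v 3) hw3 (hv' 3 h3L) hw1 h31
  have h6 : dl v L f (-x) = dl v L f x := by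
    have h7 : -x = ξ * (v 2 * (v 3 * x)) := by
      rw [← e1, ← e2, ← neg_one_mul x, ← hξw, ← haw]
      simp only [mul_assoc]
    rw [h7, RB_invq D q L f h.mdv v hv' ξ hξ _ hnd, RB_inv v L 2 h2L (hsq 2 (by simp)),
      RB_inv v L 3 h3L (hsq 3 (by simp)), neg_neg]
  rw [RB_neg D L hnd f h.odd v x] at h6
  omega

theorem r4 (D q : ℕ) [NeZero D] (L : List ℕ) (ev : Prop) (f : (ZMod D)ˣ → ℤ)
    (h : RHyp D q L ev f) (hD : D = q) : MDv (Gam D) L f := by
  have hq := RB_memq h.hL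
  have hL : L = [] := by
    rw [List.eq_nil_iff_forall_not_mem]
    intro p hp
    have hpp := RB_mem h.hL hp
    have := (Nat.prime_dvd_prime_iff_eq hpp.1 hq.1).1 (hD ▸ hpp.2)
    exact (List.nodup_cons.1 h.nd).1 (this ▸ hp)
  subst hL
  intro x
  have h1 : (-1 : (ZMod D)ˣ) ∈ Gam D q := by
    rw [GA_mem (e := 1) (by rw [hD, one_mul]) hq.1.pos]
    exact Subsingleton.elim _ _
  have h2 : MDv (Gam D) [] (fun x => f (-1 * x) - f x) := h.mdv (-1) h1
  have h3 := h2 x
  simp only [neg_mul, one_mul] at h3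
  rw [h.odd] at h3
  omega

end Pool.Agent.helper88.EF
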