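import Pool.Agent.helper78.EF.RB

/-! # Project EF, module RD: r7, r9 -/

namespace Pool.Agent.helper88.EF

open Finset Pool.Agent.helper76.LP

theorem r7 (D q : ℕ) [NeZero D] (L : List ℕ) (ev : Prop) (f : (ZMod D)ˣ → ℤ)
    (h : RHyp D q L ev f) (h17 : 17 ≤ q) (ho : Odd D) (h2 : ¬ q * q ∣ D) (ha : D ≠ q)
    (hb : D ≠ 3 * q) : MDv (Gam D) L f := by
  have hq := RB_memq h.hL
  apply RB_gen D q L ev f h 2
  · rw [RB_card_q D q hq.1 hq.2 h2]
    have : 16 ≤ q - 1 := by omega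
    have : (16 : ℤ) ≤ ((q - 1 : ℕ) : ℤ) := by exact_mod_cast this
    omega
  · intro v z ψ hψ
    exact bd_two D q L v z ψ hψ ev
  · apply RB_large D q L h.nd h.hL h.h4 (by omega)
    obtain ⟨k, hk⟩ := ho
    rintro (h | h | h | h) <;> omega

/-- the residue of a product modulo a prime `p` with `p ∣ D / r` for all other `r` -/
theorem RD_prod (D p : ℕ) [NeZero D] (hpD : p ∣ D) (v : ℕ → (ZMod D)ˣ) (S : Finset ℕ)
    (hv : ∀ r ∈ S, r ≠ p → ZMod.unitsMap hpD (v r) = 1) :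
    ZMod.unitsMap hpD (∏ r ∈ S, v r) = if p ∈ S then ZMod.unitsMap hpD (v p) else 1 := by
  rw [map_prod]
  split_ifs with h
  · rw [Finset.prod_eq_single_of_mem p h]
    intro r hr hrp
    exact hv r hr hrp
  · apply Finset.prod_eq_one
    intro r hr
    exact hv r hr (fun hc => h (hc ▸ hr))

theorem RD_dvd (D p r : ℕ) (hp : p.Prime) (hr : r.Prime) (hpD : p ∣ D) (hrD : r ∣ D)
    (h : r ≠ p) : p ∣ D / r := by
  obtain ⟨k, hk⟩ := hrD
  rw [hk, Nat.mul_div_cancel_left _ hr.pos]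
  rw [hk] at hpD
  exact ((Nat.coprime_primes hp hr).2 (Ne.symm h)).dvd_of_dvd_mul_left hpD

/-- the relation of a bad pair, modulo a prime `p ∈ L` -/
theorem RD_res (D q : ℕ) [NeZero D] (L : List ℕ) (hnd : (q :: L).Nodup)
    (hL : (q :: L).toFinset = D.primeFactors) (v : ℕ → (ZMod D)ˣ)
    (hv : ∀ p ∈ L, v p ∈ Gam D p) (p : ℕ) (hpL : p ∈ L) (hpD : p ∣ D) (b : Bool)
    (S S' : Finset ℕ) (ξ : (ZMod D)ˣ) (hS : S ⊆ L.toFinset) (hS' : S' ⊆ L.toFinset)
    (hξ : ξ ∈ Gam D q)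
    (he : (2 : ZMod D) * ((∏ p ∈ S, v p : (ZMod D)ˣ) : ZMod D) =
        ((su b * ξ * ∏ p ∈ S', v p : (ZMod D)ˣ) : ZMod D)) :
    (2 : ZMod p) * (if p ∈ S then ((ZMod.unitsMap hpD (v p) : (ZMod p)ˣ) : ZMod p) else 1) =
      (sg b : ZMod p) *
        (if p ∈ S' then ((ZMod.unitsMap hpD (v p) : (ZMod p)ˣ) : ZMod p) else 1) := by
  have hpp := (RB_mem hL hpL).1
  have hq := RB_memq hL
  have hpq : p ≠ q := fun hc => (List.nodup_cons.1 hnd).1 (hc ▸ hpL)
  have hcast : ∀ u : (ZMod D)ˣ, ZMod.castHom hpD (ZMod p) (u : ZMod D) =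
      ((ZMod.unitsMap hpD u : (ZMod p)ˣ) : ZMod p) := by
    intro u
    rw [ZMod.unitsMap_def, Units.coe_map]
    rfl
  have h1 : ∀ T : Finset ℕ, T ⊆ L.toFinset →
      ZMod.unitsMap hpD (∏ r ∈ T, v r) = if p ∈ T then ZMod.unitsMap hpD (v p) else 1 := by
    intro T hT
    apply RD_prod
    intro r hr hrp
    have hrL : r ∈ L := List.mem_toFinset.1 (hT hr)
    exact gam_one D r p hpD (RD_dvd D p r hpp (RB_mem hL hrL).1 hpD (RB_mem hL hrL).2 hrp) _
      (hv r hrL)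
  have h2 : ZMod.unitsMap hpD ξ = 1 :=
    gam_one D q p hpD (RD_dvd D p q hpp hq.1 hpD hq.2 hpq.symm) ξ hξ
  have h3 := congrArg (ZMod.castHom hpD (ZMod p)) he
  rw [map_mul, hcast, hcast, h1 S hS, map_mul, map_mul, h1 S' hS', h2, mul_one] at h3
  have h4 : ((ZMod.unitsMap hpD (su b) : (ZMod p)ˣ) : ZMod p) = (sg b : ZMod p) := by
    rw [← hcast]
    cases b
    · show ZMod.castHom hpD (ZMod p) ((1 : (ZMod D)ˣ) : ZMod D) = ((1 : ℤ) : ZMod p)
      rw [Units.val_one, map_one, Int.cast_one]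
    · show ZMod.castHom hpD (ZMod p) ((-1 : (ZMod D)ˣ) : ZMod D) = ((-1 : ℤ) : ZMod p)
      rw [Units.val_neg, Units.val_one, map_neg, map_one, Int.cast_neg, Int.cast_one]
  rw [Units.val_mul, h4] at h3
  have h5 : ZMod.castHom hpD (ZMod p) (2 : ZMod D) = 2 := by
    rw [map_ofNat]
  rw [h5] at h3
  have h6 : ∀ (c : Prop) [Decidable c] (u : (ZMod p)ˣ),
      (((if c then u else 1 : (ZMod p)ˣ)) : ZMod p) = if c then (u : ZMod p) else 1 := by
    intro c _ u
    split_ifs <;> simp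
  rw [h6, h6] at h3
  exact h3

theorem RD_gen11 : ∀ y : ZMod 11, y ≠ 0 → ∃ n ∈ Finset.range 10, (7 : ZMod 11) ^ n = y := by
  decide

theorem RD_unit11 : ∃ a : (ZMod 11)ˣ, (a : ZMod 11) = 7 ∧
    Subgroup.closure ({a} : Set (ZMod 11)ˣ) = ⊤ := by
  have e7 : (7 : ZMod 11) * 8 = 1 := by decide
  have e7' : (8 : ZMod 11) * 7 = 1 := by decide
  refine ⟨⟨7, 8, e7, e7'⟩, rfl, ?_⟩
  rw [eq_top_iff]
  intro x _
  have p11 : Nat.Prime 11 := by norm_num
  have : Fact (Nat.Prime 11) := ⟨p11⟩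
  obtain ⟨n, _, hn⟩ := RD_gen11 (x : ZMod 11) x.ne_zero
  have h1 : (⟨7, 8, e7, e7'⟩ : (ZMod 11)ˣ) ^ n = x := by
    apply Units.ext
    rw [Units.val_pow_eq_pow_val]
    exact hn
  rw [← h1]
  exact Subgroup.pow_mem _ (Subgroup.subset_closure (Set.mem_singleton _)) n

theorem r9 (D q : ℕ) [NeZero D] (L : List ℕ) (ev : Prop) (f : (ZMod D)ˣ → ℤ)
    (h : RHyp D q L ev f) (h13 : 13 ≤ q) (ho : Odd D) (h2 : ¬ q * q ∣ D) (h11 : 11 ∣ D)
    (h121 : ¬ 11 * 11 ∣ D) : MDv (Gam D) L f := by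
  classical
  have hq := RB_memq h.hL
  have p11 : Nat.Prime 11 := by norm_num
  have h11L : 11 ∈ L := RB_mem_of h.hL p11 h11 (by omega)
  obtain ⟨a, haval, hcl⟩ := RD_unit11
  apply RB_main D q L ev f h 1 (V := fun p =>
    if p = 11 then {v | v ∈ Gam D 11 ∧ ZMod.unitsMap h11 v ∈ ({a} : Set (ZMod 11)ˣ)}
    else (Gam D p : Set (ZMod D)ˣ))
  · rw [RB_card_q D q hq.1 hq.2 h2]
    have : 12 ≤ q - 1 := by omega
    have : (12 : ℤ) ≤ ((q - 1 : ℕ) : ℤ) := by exact_mod_cast this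
    omega
  · intro p hp x hx
    by_cases hp11 : p = 11
    · subst hp11
      rw [if_pos rfl] at hx
      exact hx.1
    · rw [if_neg hp11] at hx
      exact hx
  · intro p hp
    by_cases hp11 : p = 11
    · subst hp11
      rw [if_pos rfl]
      exact gam_closure D 11 p11 h11 h121 {a} hcl
    · rw [if_neg hp11]
      exact Subgroup.subset_closure
  · intro v hv hv1
    have hvG : ∀ p ∈ L, v p ∈ Gam D p := by
      intro p hp
      have := hv p hp
      by_cases hp11 : p = 11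
      · subst hp11
        rw [if_pos rfl] at this
        exact this.1
      · rw [if_neg hp11] at this
        exact this
    have hv11 : ZMod.unitsMap h11 (v 11) = a := by
      have := hv 11 h11L
      rw [if_pos rfl] at this
      exact this.2
    constructor
    · right
      refine ⟨11, h11L, ?_⟩
      intro hc
      have h3 := congrArg (ZMod.unitsMap h11) hc
      rw [map_mul, map_one, hv11] at h3
      have h4 := congrArg Units.val h3
      rw [Units.val_mul, haval, Units.val_one] at h4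
      revert h4; decide
    · intro z ψ hψ
      apply bd_one D q L v z ψ hψ ev
      intro _ _ b S S' ξ hS hS' hξ he
      exfalso
      have h3 := RD_res D q L h.nd h.hL v hvG 11 h11L h11 b S S' ξ hS hS' hξ he
      rw [hv11, haval] at h3
      revert h3
      cases b <;> by_cases c1 : 11 ∈ S <;> by_cases c2 : 11 ∈ S' <;> simp only [c1, c2, if_true,
        if_false, sg] <;> decide

end Pool.Agent.helper88.EF
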